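import Pool.Agent.Y489.PH.Stm2

/-!
# Project PH: Lipschitz approximation, affine near finitely many points (helper529)
-/

set_option autoImplicit false

open MeasureTheory Set Metric Filter Topology
open scoped ENNReal NNReal ContDiff

noncomputable section

namespace Pool.Agent.Y529.PH

open Pool.Agent.Y489.PH Pool.Agent.Y485.HS

/-- extension of the map to the whole space -/
theorem extend {n : ℕ} (u : E n → E n) (hu : ContinuousOn u (BB n))
    (hd : ∀ x ∈ BB n, dist (u x) x ≤ 1 / 4) :
    ∃ v : E n → E n, Continuous v ∧ (∀ x, dist (v x) x ≤ 1 / 4) ∧ (∀ x, ‖x‖ ≤ 3 → v x = u x) ∧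
      ∀ x, 4 ≤ ‖x‖ → v x = x := by
  have hcl : IsClosed (BB n) := isClosed_closedBall
  obtain ⟨U, hU⟩ := ContinuousMap.exists_restrict_eq hcl
    (⟨(BB n).domRestrict u, continuousOn_iff_continuous_domRestrict.1 hu⟩ : C(BB n, E n))
  have hU' : ∀ x ∈ BB n, U x = u x := fun x hx =>
    congrArg (fun g : C(BB n, E n) => g ⟨x, hx⟩) hU
  let χ : ContDiffBump (0 : E n) := ⟨3, 4, by norm_num, by norm_num⟩
  have hBB : ∀ x : E n, x ∈ BB n ↔ ‖x‖ ≤ 4 := fun x => by
    unfold BB
    rw [mem_closedBall, dist_zero_right]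
  refine ⟨fun x => x + χ x • (U x - x), ?_, ?_, ?_, ?_⟩
  · exact continuous_id.add (χ.continuous.smul ((map_continuous U).sub continuous_id))
  · intro x
    rw [dist_eq_norm, add_sub_cancel_left, norm_smul, Real.norm_of_nonneg χ.nonneg]
    by_cases hx : ‖x‖ ≤ 4
    · have h1 := hd x ((hBB x).2 hx)
      rw [dist_eq_norm, ← hU' x ((hBB x).2 hx)] at h1
      have h2 := χ.le_one (x := x)
      have h3 := χ.nonneg (x := x)
      have h4 := norm_nonneg (U x - x)
      nlinarith
    · have h1 : χ x = 0 := χ.zero_of_le_dist (by rw [dist_zero_right]; linarith)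
      rw [h1, zero_mul]
      norm_num
  · intro x hx
    have h1 : χ x = 1 := χ.one_of_mem_closedBall (by
      rw [mem_closedBall, dist_zero_right]; exact hx)
    change x + χ x • (U x - x) = u x
    rw [h1, one_smul, hU' x ((hBB x).2 (by linarith))]
    abel
  · intro x hx
    have h1 : χ x = 0 := χ.zero_of_le_dist (by rw [dist_zero_right]; exact hx)
    change x + χ x • (U x - x) = x
    rw [h1, zero_smul, add_zero]

/-- invertible linear maps are bounded below -/
theorem lower {n : ℕ} (D : E n →L[ℝ] E n) (hD : D.det ≠ 0) :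
    ∃ c : ℝ, 0 < c ∧ ∀ w, c * ‖w‖ ≤ ‖D w‖ := by
  let e := D.toContinuousLinearEquivOfDetNeZero hD
  have he : ∀ w, e w = D w := fun w => rfl
  refine ⟨1 / (‖(e.symm : E n →L[ℝ] E n)‖ + 1), by positivity, fun w => ?_⟩
  have h1 : ‖w‖ ≤ ‖(e.symm : E n →L[ℝ] E n)‖ * ‖D w‖ := by
    have h2 := (e.symm : E n →L[ℝ] E n).le_opNorm (D w)
    have h3 : (e.symm : E n →L[ℝ] E n) (D w) = w := by
      rw [← he]
      exact e.symm_apply_apply w
    rwa [h3] at h2
  have h4 := norm_nonneg (D w)
  rw [one_div_mul_eq_div, div_le_iff₀ (by positivity)]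
  nlinarith

theorem t_APP : S_APP := by
  classical
  intro n u hu hd y hy P D hP hD
  obtain ⟨v, hvc, hvd, hvu, hvo⟩ := extend u hu hd
  have hy2 : ‖y‖ < 2 := by rwa [mem_ball, dist_zero_right] at hy
  have hP3 : ∀ x ∈ P, ‖x‖ < 3 := fun x hx => by
    have := ((hP x).1 hx).1
    rwa [mem_ball, dist_zero_right] at this
  -- the preimages
  have hvP : ∀ x, v x = y ↔ x ∈ P := by
    intro x
    constructor
    · intro h
      have h1 := hvd x
      rw [h, dist_eq_norm] at h1
      have h2 : ‖x‖ ≤ ‖y‖ + ‖y - x‖ := by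
        have : x = y - (y - x) := by abel
        calc ‖x‖ = ‖y - (y - x)‖ := by rw [← this]
          _ ≤ ‖y‖ + ‖y - x‖ := norm_sub_le _ _
      have h3 : ‖x‖ < 3 := by linarith
      rw [hP, mem_ball, dist_zero_right]
      exact ⟨h3, by rw [← hvu x h3.le]; exact h⟩
    · intro h
      rw [hvu x (hP3 x h).le]
      exact ((hP x).1 h).2
  choose! c hc0 hc using fun x (hx : x ∈ P) => lower (D x) (hD x hx).2
  -- the radius
  have hev : ∀ᶠ r in 𝓝[>] (0 : ℝ), ∀ x ∈ P, ‖x‖ + r < 3 ∧
      (∀ z, dist z x ≤ r → ‖v z - y - D x (z - x)‖ ≤ c x / 4 * ‖z - x‖) ∧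
      ∀ x' ∈ P, x ≠ x' → 3 * r < dist x x' := by
    rw [Filter.eventually_all_finset]
    intro x hx
    have e1 : ∀ᶠ r in 𝓝[>] (0 : ℝ), ‖x‖ + r < 3 := by
      have h1 : Tendsto (fun r : ℝ => ‖x‖ + r) (𝓝[>] 0) (𝓝 (‖x‖ + 0)) :=
        (tendsto_const_nhds.add tendsto_id).mono_left nhdsWithin_le_nhds
      rw [add_zero] at h1
      exact h1.eventually (gt_mem_nhds (hP3 x hx))
    have e2 : ∀ᶠ r in 𝓝[>] (0 : ℝ), ∀ z, dist z x ≤ r →
        ‖v z - y - D x (z - x)‖ ≤ c x / 4 * ‖z - x‖ := by
      have h1 : HasFDerivAt v (D x) x := by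
        refine (hD x hx).1.congr_of_eventuallyEq ?_
        have h2 : ball (0 : E n) 3 ∈ 𝓝 x := isOpen_ball.mem_nhds (by
          rw [mem_ball, dist_zero_right]; exact hP3 x hx)
        filter_upwards [h2] with z hz
        rw [mem_ball, dist_zero_right] at hz
        exact hvu z hz.le
      have h3 := h1.isLittleO.def (c := c x / 4) (by have := hc0 x hx; linarith)
      rw [Metric.eventually_nhds_iff] at h3
      obtain ⟨δ, hδ, h3⟩ := h3
      filter_upwards [Ioo_mem_nhdsGT hδ] with r hr z hz
      have h4 := h3 (y := z) (lt_of_le_of_lt hz hr.2)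
      rwa [(hvP x).2 hx] at h4
    have e3 : ∀ᶠ r in 𝓝[>] (0 : ℝ), ∀ x' ∈ P, x ≠ x' → 3 * r < dist x x' := by
      rw [Filter.eventually_all_finset]
      intro x' _
      by_cases h : x = x'
      · exact Eventually.of_forall fun r h' => absurd h h'
      · have h1 : Tendsto (fun r : ℝ => 3 * r) (𝓝[>] 0) (𝓝 (3 * 0)) :=
          (tendsto_const_nhds.mul tendsto_id).mono_left nhdsWithin_le_nhds
        rw [mul_zero] at h1
        filter_upwards [h1.eventually (gt_mem_nhds (dist_pos.2 h))] with r hr _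
        exact hr
    filter_upwards [e1, e2, e3] with r h1 h2 h3
    exact ⟨h1, h2, h3⟩
  obtain ⟨r, hr, hr0⟩ := (hev.and self_mem_nhdsWithin).exists
  replace hr0 : (0 : ℝ) < r := hr0
  -- bumps
  let Ψ : ∀ x : E n, ContDiffBump x := fun x => ⟨r / 2, r, by linarith, by linarith⟩
  let ψ : ∀ x : E n, ContDiffBump x := fun x => ⟨r / 4, r / 2, by linarith, by linarith⟩
  let χ : ContDiffBump (0 : E n) := ⟨5, 6, by norm_num, by norm_num⟩
  let w : E n → E n := fun z => ∑ x ∈ P, Ψ x z • (y + D x (z - x) - z)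
  let θ : E n → ℝ := fun z => χ z * ∏ x ∈ P, (1 - ψ x z)
  have hwC : ContDiff ℝ ∞ w := by
    refine ContDiff.sum fun x _ => ?_
    refine (Ψ x).contDiff.smul ?_
    exact (contDiff_const.add ((D x).contDiff.comp (contDiff_id.sub contDiff_const))).sub contDiff_id
  have hθC : ContDiff ℝ ∞ θ := by
    refine χ.contDiff.mul (contDiff_prod fun x _ => ?_)
    exact contDiff_const.sub (ψ x).contDiff
  have hθ0 : ∀ z, 0 ≤ θ z := fun z => mul_nonneg χ.nonneg
    (Finset.prod_nonneg fun x _ => by have := (ψ x).le_one (x := z); linarith)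
  have hθ1 : ∀ z, θ z ≤ 1 := fun z => mul_le_one₀ χ.le_one
    (Finset.prod_nonneg fun x _ => by have := (ψ x).le_one (x := z); linarith)
    (Finset.prod_le_one (fun x _ => by have := (ψ x).le_one (x := z); linarith)
      fun x _ => by have := (ψ x).nonneg (x := z); linarith)
  -- `w` near the points
  have hw1 : ∀ x ∈ P, ∀ z, dist z x ≤ r / 2 → w z = y + D x (z - x) - z := by
    intro x hx z hz
    change ∑ x ∈ P, Ψ x z • (y + D x (z - x) - z) = _
    rw [Finset.sum_eq_single_of_mem x hx]
    · have h1 : Ψ x z = 1 := (Ψ x).one_of_mem_closedBall hz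
      rw [h1, one_smul]
    · intro x' hx' hne
      have h1 := (hr x hx).2.2 x' hx' hne.symm
      have h2 : dist x x' ≤ dist z x + dist z x' := by
        rw [dist_comm z x]; exact dist_triangle x z x'
      have h3 : Ψ x' z = 0 := (Ψ x').zero_of_le_dist (by
        change r ≤ dist z x'
        linarith)
      rw [h3, zero_smul]
  have hw0 : ∀ z, 4 ≤ ‖z‖ → w z = 0 := by
    intro z hz
    change ∑ x ∈ P, Ψ x z • (y + D x (z - x) - z) = 0
    refine Finset.sum_eq_zero fun x hx => ?_
    have h1 := (hr x hx).1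
    have h2 : ‖z‖ ≤ dist z x + ‖x‖ := by
      rw [dist_eq_norm]
      calc ‖z‖ = ‖(z - x) + x‖ := by rw [sub_add_cancel]
        _ ≤ ‖z - x‖ + ‖x‖ := norm_add_le _ _
    have h3 : Ψ x z = 0 := (Ψ x).zero_of_le_dist (by
      change r ≤ dist z x
      linarith)
    rw [h3, zero_smul]
  have hθz : ∀ x ∈ P, ∀ z, dist z x ≤ r / 4 → θ z = 0 := by
    intro x hx z hz
    have h1 : ψ x z = 1 := (ψ x).one_of_mem_closedBall hz
    have h2 : ∏ x ∈ P, (1 - ψ x z) = 0 := Finset.prod_eq_zero hx (by rw [h1, sub_self])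
    change χ z * ∏ x ∈ P, (1 - ψ x z) = 0
    rw [h2, mul_zero]
  have hθo : ∀ z, ‖z‖ ≤ 5 → (∀ x ∈ P, r / 2 ≤ dist z x) → θ z = 1 := by
    intro z hz h
    have h1 : χ z = 1 := χ.one_of_mem_closedBall (by
      rw [mem_closedBall, dist_zero_right]; exact hz)
    change χ z * ∏ x ∈ P, (1 - ψ x z) = 1
    rw [h1, one_mul]
    refine Finset.prod_eq_one fun x hx => ?_
    rw [(ψ x).zero_of_le_dist (h x hx), sub_zero]
  -- the map without the error
  let G : E n → E n := fun z => (1 - θ z) • (z + w z) + θ z • v z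
  have hGc : Continuous G :=
    ((continuous_const.sub hθC.continuous).smul (continuous_id.add hwC.continuous)).add
      (hθC.continuous.smul hvc)
  have hGo : ∀ z, 4 ≤ ‖z‖ → G z = z := by
    intro z hz
    change (1 - θ z) • (z + w z) + θ z • v z = z
    rw [hw0 z hz, hvo z hz, add_zero, ← add_smul, sub_add_cancel, one_smul]
  have hGy : ∀ z, z ∉ P → G z ≠ y := by
    intro z hz h
    by_cases h1 : ∃ x ∈ P, dist z x ≤ r / 2
    · obtain ⟨x, hx, hzx⟩ := h1
      have h2 : G z = y + D x (z - x) + θ z • (v z - y - D x (z - x)) := by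
        change (1 - θ z) • (z + w z) + θ z • v z = _
        rw [hw1 x hx z hzx]
        module
      have h3 := (hr x hx).2.1 z (by linarith)
      have h4 := hc x hx (z - x)
      have h5 : D x (z - x) = -(θ z • (v z - y - D x (z - x))) := by
        rw [h2] at h
        rw [eq_neg_iff_add_eq_zero]
        have h6 : y + (D x (z - x) + θ z • (v z - y - D x (z - x))) = y + 0 := by
          rw [← add_assoc, add_zero]; exact h
        exact add_left_cancel h6
      have h6 : ‖D x (z - x)‖ ≤ c x / 4 * ‖z - x‖ := by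
        rw [h5, norm_neg, norm_smul, Real.norm_of_nonneg (hθ0 z)]
        calc θ z * ‖v z - y - D x (z - x)‖ ≤ 1 * ‖v z - y - D x (z - x)‖ :=
              mul_le_mul_of_nonneg_right (hθ1 z) (norm_nonneg _)
          _ ≤ c x / 4 * ‖z - x‖ := by rw [one_mul]; exact h3
      have h7 : 0 < ‖z - x‖ := norm_pos_iff.2 (sub_ne_zero.2 fun h' => hz (h' ▸ hx))
      have h8 := hc0 x hx
      nlinarith
    · push Not at h1
      rcases le_total ‖z‖ 5 with h5 | h5
      · have h2 := hθo z h5 fun x hx => (h1 x hx).le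
        have h3 : G z = v z := by
          change (1 - θ z) • (z + w z) + θ z • v z = v z
          rw [h2, sub_self, zero_smul, zero_add, one_smul]
        rw [h3] at h
        exact hz ((hvP z).1 h)
      · rw [hGo z (by linarith)] at h
        rw [h] at h5
        linarith
  -- the distance from `y`
  obtain ⟨m, hm, hmG⟩ : ∃ m : ℝ, 0 < m ∧ ∀ z, (∀ x ∈ P, z ∉ ball x (r / 4)) → 2 * m ≤ dist (G z) y := by
    have hS : IsCompact (closedBall (0 : E n) 5 \ ⋃ x ∈ P, ball x (r / 4)) :=
      (isCompact_closedBall 0 5).diff (isOpen_biUnion fun x _ => isOpen_ball)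
    have hfar : ∀ z : E n, 5 ≤ ‖z‖ → 3 ≤ dist (G z) y := by
      intro z hz
      rw [hGo z (by linarith), dist_eq_norm]
      have : ‖z‖ ≤ ‖z - y‖ + ‖y‖ := by
        calc ‖z‖ = ‖(z - y) + y‖ := by rw [sub_add_cancel]
          _ ≤ ‖z - y‖ + ‖y‖ := norm_add_le _ _
      linarith
    rcases Set.eq_empty_or_nonempty (closedBall (0 : E n) 5 \ ⋃ x ∈ P, ball x (r / 4)) with h | h
    · refine ⟨1, one_pos, fun z hz => ?_⟩
      have h1 : 5 ≤ ‖z‖ := by
        by_contra hcon
        push Not at hcon
        have : z ∈ closedBall (0 : E n) 5 \ ⋃ x ∈ P, ball x (r / 4) := by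
          refine ⟨by rw [mem_closedBall, dist_zero_right]; exact hcon.le, ?_⟩
          simp only [mem_iUnion, not_exists]
          exact hz
        rw [h] at this
        exact this
      linarith [hfar z h1]
    · obtain ⟨z0, hz0, hmin⟩ := hS.exists_isMinOn h
        ((hGc.dist continuous_const).continuousOn (s := _) : ContinuousOn (fun z => dist (G z) y) _)
      have hz0P : z0 ∉ P := by
        intro hx
        apply hz0.2
        simp only [mem_iUnion]
        exact ⟨z0, hx, mem_ball_self (by linarith)⟩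
      have hpos : 0 < dist (G z0) y := dist_pos.2 (hGy z0 hz0P)
      refine ⟨min (dist (G z0) y) 3 / 2, by positivity, fun z hz => ?_⟩
      have e : 2 * (min (dist (G z0) y) 3 / 2) = min (dist (G z0) y) 3 := by ring
      rw [e]
      rcases le_total ‖z‖ 5 with h5 | h5
      · refine (min_le_left _ _).trans (hmin ?_)
        refine ⟨by rw [mem_closedBall, dist_zero_right]; exact h5, ?_⟩
        simp only [mem_iUnion, not_exists]
        exact hz
      · exact (min_le_right _ _).trans (hfar z h5)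
  -- smooth approximation of the error
  have hhc : Continuous fun z => v z - z - w z := (hvc.sub continuous_id).sub hwC.continuous
  have hhs : HasCompactSupport fun z => v z - z - w z := by
    refine HasCompactSupport.intro (isCompact_closedBall (0 : E n) 4) fun z hz => ?_
    rw [mem_closedBall, dist_zero_right, not_le] at hz
    rw [hvo z hz.le, hw0 z hz.le]
    simp
  obtain ⟨g, hgC, hg⟩ := (hhs.uniformContinuous_of_continuous hhc).exists_contDiff_dist_le hm
  let k : E n → E n := fun z => w z + θ z • g z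
  have hkC : ContDiff ℝ ∞ k := hwC.add (hθC.smul hgC)
  have hk0 : ∀ z, 6 ≤ ‖z‖ → k z = 0 := by
    intro z hz
    have h1 : χ z = 0 := χ.zero_of_le_dist (by rw [dist_zero_right]; exact hz)
    have h2 : θ z = 0 := by
      change χ z * _ = 0
      rw [h1, zero_mul]
    change w z + θ z • g z = 0
    rw [h2, hw0 z (by linarith), zero_smul, add_zero]
  have hks : HasCompactSupport k := by
    refine HasCompactSupport.intro (isCompact_closedBall (0 : E n) 6) fun z hz => ?_
    rw [mem_closedBall, dist_zero_right, not_le] at hz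
    exact hk0 z hz.le
  obtain ⟨K, hK⟩ := ContDiff.lipschitzWith_of_hasCompactSupport (𝕂 := ℝ) hks hkC (by simp)
  refine ⟨fun z => z + k z, 1 + K, r / 4, m, LipschitzWith.id.add hK, ?_, by linarith, hm, ?_, ?_, ?_⟩
  · intro x hx
    change x + k x = x
    rw [hk0 x hx, add_zero]
  · intro x hx x' hx' hne
    have h1 := (hr x hx).2.2 x' hx' hne
    exact ball_disjoint_ball (by linarith)
  · intro x hx z hz
    have h1 : dist z x ≤ r / 4 := (mem_ball.1 hz).le
    change z + (w z + θ z • g z) = _
    rw [hθz x hx z h1, zero_smul, add_zero, hw1 x hx z (by linarith)]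
    abel
  · intro z hz
    have h1 := hmG z hz
    have h2 : dist (z + k z) (G z) ≤ m := by
      have h3 : z + k z - G z = θ z • (g z - (v z - z - w z)) := by
        change z + (w z + θ z • g z) - ((1 - θ z) • (z + w z) + θ z • v z) = _
        module
      rw [dist_eq_norm, h3, norm_smul, Real.norm_of_nonneg (hθ0 z)]
      have h4 := (hg z).le
      rw [dist_eq_norm] at h4
      calc θ z * ‖g z - (v z - z - w z)‖ ≤ 1 * ‖g z - (v z - z - w z)‖ :=
            mul_le_mul_of_nonneg_right (hθ1 z) (norm_nonneg _)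
        _ ≤ m := by rw [one_mul]; exact h4
    have h5 : dist (G z) y ≤ dist (z + k z) (G z) + dist (z + k z) y := by
      rw [dist_comm (z + k z) (G z)]; exact dist_triangle _ _ _
    change m ≤ dist (z + k z) y
    linarith

end Pool.Agent.Y529.PH
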